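import Mathlib
import Pool.Agent.Lib.H16.RichCount

set_option autoImplicit false

/-!
# Infinite `k`-abelian rich words exist for every `k`

There is a finite alphabet over which, for every `k ≥ 1`, there is an infinite word `w` and a
constant `C > 0` such that every factor of `w` of length `n ≥ 1` has at least `C n ^ 2` pairwise
`k`-abelian inequivalent factors that are `k`-abelian palindromes.

* Reduction to `k = 1`: if `x = x_0 x_1 ...` is an infinite word and `w = 0^k x_0 0^k x_1 ...`, then
  every factor `0^k x_i 0^k ... x_j 0^k` is a `k`-abelian palindrome, and two such factors are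
  `k`-abelian equivalent if and only if the corresponding factors of `x` are abelian equivalent.
* The word `x` is the sequence of steps of a walk in `ℤ^6` with bounded steps such that in every
  window of length `n` there are at least `c n ^ 2` distinct differences
  (see `Pool.Agent.Lib.H16.RichWalk`, `RichDecode`, `RichCount`).
-/

namespace Pool.Agent.Results.MP_ca9ca1_co.RichWordsExist

open Finset

/-- The number of occurrences of `x` as a factor of `u`: the number of positions `i ≤ |u|` such
that `u` with its first `i` letters removed begins with `x`. -/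
def occ {A : Type} [DecidableEq A] (x u : List A) : ℕ :=
  #((range (u.length + 1)).filter (fun i => x <+: u.drop i))

/-- `k`-abelian equivalence of words: every word of length at most `k` has the same number of
occurrences in `u` and in `v`. -/
def KAbEquiv {A : Type} [DecidableEq A] (k : ℕ) (u v : List A) : Prop :=
  ∀ x : List A, x.length ≤ k → occ x u = occ x v

/-- `k`-abelian equivalence as a setoid. -/
def kAbSetoid (A : Type) [DecidableEq A] (k : ℕ) : Setoid (List A) where
  r := KAbEquiv k
  iseqv :=
    { refl := fun _ _ _ => rfl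
      symm := fun h x hx => (h x hx).symm
      trans := fun h h' x hx => (h x hx).trans (h' x hx) }

/-- `k`-abelian palindromes: words that are `k`-abelian equivalent to their reversal. -/
def IsKAbPalindrome {A : Type} [DecidableEq A] (k : ℕ) (u : List A) : Prop :=
  KAbEquiv k u u.reverse

/-- The number of `k`-abelian equivalence classes that contain at least one factor of `u` which is a
`k`-abelian palindrome. -/
noncomputable def kpal {A : Type} [DecidableEq A] (k : ℕ) (u : List A) : ℕ :=
  Set.ncard {c : Quotient (kAbSetoid A k) |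
    ∃ v : List A, v <:+: u ∧ IsKAbPalindrome k v ∧ c = Quotient.mk (kAbSetoid A k) v}

/-- The factor of length `n` of the infinite word `w` that starts at position `i`. -/
def factor {A : Type} (w : ℕ → A) (i n : ℕ) : List A :=
  (List.range n).map (fun j => w (i + j))

/-- Infinite `k`-abelian rich words. -/
def IsKAbelianRich {A : Type} [DecidableEq A] (k : ℕ) (w : ℕ → A) : Prop :=
  ∃ C : ℝ, 0 < C ∧ ∀ n : ℕ, 1 ≤ n → ∀ i : ℕ, C * (n : ℝ) ^ 2 ≤ kpal k (factor w i n)

/-! ### Occurrences -/

section occ

variable {A : Type} [DecidableEq A]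

theorem occ_nil_right (x : List A) : occ x [] = if x <+: ([] : List A) then 1 else 0 := by
  unfold occ
  rw [card_filter]
  simp

theorem occ_cons (x : List A) (a : A) (u : List A) :
    occ x (a :: u) = (if x <+: a :: u then 1 else 0) + occ x u := by
  unfold occ
  rw [card_filter, card_filter, List.length_cons, sum_range_succ']
  simp only [List.drop_succ_cons, List.drop_zero]
  rw [add_comm]

theorem occ_split (x p m s : List A) (h : x.length ≤ m.length) :
    occ x (p ++ (m ++ s)) + occ x m = occ x (p ++ m) + occ x (m ++ s) := by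
  induction p with
  | nil => simp [add_comm]
  | cons a p ih =>
    have h1 : x <+: a :: (p ++ (m ++ s)) ↔ x <+: a :: (p ++ m) := by
      rw [show a :: (p ++ (m ++ s)) = (a :: (p ++ m)) ++ s by simp]
      apply List.isPrefix_append_of_length
      simp
      omega
    rw [List.cons_append, List.cons_append, occ_cons, occ_cons]
    simp only [h1]
    omega

theorem occ_singleton (c : A) (u : List A) : occ [c] u = u.countP (fun b => decide (b = c)) := by
  induction u with
  | nil => simp [occ_nil_right]
  | cons a u ih =>
    rw [occ_cons, ih, List.countP_cons]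
    by_cases h : a = c
    · subst h
      simp [add_comm]
    · have h' : ¬ c = a := fun h2 => h h2.symm
      simp [h, h']

end occ

/-! ### The padded encoding -/

section enc

variable {A : Type} [DecidableEq A]

/-- `0^k`. -/
def pad (A : Type) (k : ℕ) : List (Option A) := List.replicate k none

/-- `enc k [a_1, ..., a_n] = 0^k a_1 0^k ... a_n 0^k`. -/
def enc (k : ℕ) : List A → List (Option A)
  | [] => pad A k
  | a :: y => pad A k ++ some a :: enc k y

omit [DecidableEq A] in
theorem enc_eq_pad_append (k : ℕ) (y : List A) : ∃ t, enc k y = pad A k ++ t := by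
  cases y with
  | nil => exact ⟨[], by simp [enc]⟩
  | cons a y => exact ⟨_, rfl⟩

omit [DecidableEq A] in
theorem enc_append_singleton (k : ℕ) (y : List A) (a : A) :
    enc k (y ++ [a]) = enc k y ++ some a :: pad A k := by
  induction y with
  | nil => rfl
  | cons b y ih =>
    rw [List.cons_append, enc, ih, enc]
    simp

omit [DecidableEq A] in
theorem enc_reverse (k : ℕ) (y : List A) : (enc k y).reverse = enc k y.reverse := by
  induction y with
  | nil => simp [enc, pad]
  | cons a y ih =>
    rw [enc, List.reverse_append, List.reverse_cons, ih, List.reverse_cons, enc_append_singleton]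
    simp [pad]

theorem occ_enc_cons (k : ℕ) (z : List (Option A)) (hz : z.length ≤ k) (a : A) (y : List A) :
    occ z (enc k (a :: y)) + occ z (pad A k) = occ z (enc k [a]) + occ z (enc k y) := by
  obtain ⟨t, ht⟩ := enc_eq_pad_append k y
  have h := occ_split z (pad A k ++ [some a]) (pad A k) t (by simpa [pad] using hz)
  rw [← ht] at h
  have h1 : enc k (a :: y) = (pad A k ++ [some a]) ++ enc k y := by simp [enc]
  have h2 : enc k [a] = (pad A k ++ [some a]) ++ pad A k := by simp [enc]
  rw [h1, h2]
  exact h

theorem occ_enc (k : ℕ) (z : List (Option A)) (hz : z.length ≤ k) (y : List A) :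
    occ z (enc k y) + y.length * occ z (pad A k)
      = (y.map (fun a => occ z (enc k [a]))).sum + occ z (pad A k) := by
  induction y with
  | nil => simp [enc]
  | cons a y ih =>
    have h := occ_enc_cons k z hz a y
    rw [List.map_cons, List.sum_cons, List.length_cons]
    have h2 : (y.length + 1) * occ z (pad A k)
        = y.length * occ z (pad A k) + occ z (pad A k) := by ring
    rw [h2]
    omega

theorem enc_perm {k : ℕ} {y y' : List A} (h : y.Perm y') : KAbEquiv k (enc k y) (enc k y') := by
  intro z hz
  have h1 := occ_enc k z hz y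
  have h2 := occ_enc k z hz y'
  have h3 : (y.map (fun a => occ z (enc k [a]))).sum = (y'.map (fun a => occ z (enc k [a]))).sum :=
    (h.map _).sum_eq
  rw [h3, h.length_eq] at h1
  omega

theorem enc_palindrome (k : ℕ) (y : List A) : IsKAbPalindrome k (enc k y) := by
  unfold IsKAbPalindrome
  rw [enc_reverse]
  exact enc_perm (List.reverse_perm y).symm

theorem occ_some_enc (k : ℕ) (y : List A) (a : A) : occ [some a] (enc k y) = y.count a := by
  rw [occ_singleton]
  have hp : (pad A k).countP (fun b => decide (b = some a)) = 0 := by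
    unfold pad
    rw [List.countP_replicate]
    simp
  induction y with
  | nil => rw [enc, hp]; simp
  | cons b y ih =>
    rw [enc, List.countP_append, hp, List.countP_cons, List.count_cons, ih]
    simp

theorem perm_of_enc {k : ℕ} (hk : 1 ≤ k) {y y' : List A} (h : KAbEquiv k (enc k y) (enc k y')) :
    y.Perm y' := by
  rw [List.perm_iff_count]
  intro a
  have := h [some a] (by simpa using hk)
  rw [occ_some_enc, occ_some_enc] at this
  exact this

end enc

/-! ### The infinite word -/

/-- The finite set of steps: vectors in `ℤ^6` with all coordinates at most `2 ^ 102` in absolute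
value. -/
abbrev Step : Type :=
  ↥(Finset.Icc (fun _ : Fin 6 => (-(2 ^ 102) : ℤ)) (fun _ : Fin 6 => ((2 ^ 102 : ℤ))))

open Pool.Agent.Lib.H16.RichWord in
/-- The sequence of steps of the walk. -/
def stepWord (i : ℕ) : Step :=
  ⟨fun g => P (i + 1) g - P i g, by
    rw [Finset.mem_Icc]
    constructor
    · intro g
      exact (abs_le.1 (P_step i g)).1
    · intro g
      exact (abs_le.1 (P_step i g)).2⟩

/-- The infinite word `0^k x_0 0^k x_1 0^k ...`. -/
def richWord (k : ℕ) (p : ℕ) : Option Step :=
  if p % (k + 1) = k then some (stepWord (p / (k + 1))) else none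

theorem factor_add {A : Type} (w : ℕ → A) (i m n : ℕ) :
    factor w i (m + n) = factor w i m ++ factor w (i + m) n := by
  unfold factor
  rw [List.range_add, List.map_append, List.map_map]
  congr 1
  apply List.map_congr_left
  intro j _
  simp [add_assoc]

theorem factor_one {A : Type} (w : ℕ → A) (i : ℕ) : factor w i 1 = [w i] := by
  simp [factor]

theorem factor_succ {A : Type} (w : ℕ → A) (i n : ℕ) :
    factor w i (n + 1) = w i :: factor w (i + 1) n := by
  rw [add_comm n 1, factor_add, factor_one]
  rfl

theorem factor_length {A : Type} (w : ℕ → A) (i n : ℕ) : (factor w i n).length = n := by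
  simp [factor]

theorem factor_pad (k i : ℕ) : factor (richWord k) ((k + 1) * i) k = pad Step k := by
  unfold factor pad
  rw [List.eq_replicate_iff]
  refine ⟨by simp, ?_⟩
  intro b hb
  rw [List.mem_map] at hb
  obtain ⟨j, hj, rfl⟩ := hb
  have hj' : j < k := List.mem_range.1 hj
  unfold richWord
  rw [if_neg]
  rw [Nat.mul_add_mod, Nat.mod_eq_of_lt (by omega)]
  omega

theorem richWord_letter (k i : ℕ) : richWord k ((k + 1) * i + k) = some (stepWord i) := by
  unfold richWord
  rw [Nat.mul_add_mod, Nat.mod_eq_of_lt (by omega), if_pos rfl, Nat.mul_add_div (by omega),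
    Nat.div_eq_of_lt (by omega), add_zero]

theorem factor_enc (k i n : ℕ) :
    factor (richWord k) ((k + 1) * i) ((k + 1) * n + k) = enc k (factor stepWord i n) := by
  induction n generalizing i with
  | zero =>
    rw [Nat.mul_zero, Nat.zero_add, factor_pad]
    rfl
  | succ n ih =>
    rw [factor_succ, enc, ← ih (i + 1)]
    have h1 : (k + 1) * (n + 1) + k = k + (((k + 1) * n + k) + 1) := by ring
    rw [h1, factor_add, factor_pad, factor_succ, richWord_letter]
    congr 3

open Pool.Agent.Lib.H16.RichWord in
theorem sum_factor (i n : ℕ) (g : Fin 6) :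
    ((factor stepWord i n).map (fun s => s.1 g)).sum = P (i + n) g - P i g := by
  induction n generalizing i with
  | zero => simp [factor]
  | succ n ih =>
    rw [factor_succ, List.map_cons, List.sum_cons, ih (i + 1)]
    have h1 : (stepWord i).1 g = P (i + 1) g - P i g := rfl
    have h2 : i + 1 + n = i + (n + 1) := by ring
    rw [h1, h2]
    ring

theorem finite_factors {A : Type} (u : List A) : {v : List A | v <:+: u}.Finite := by
  apply (List.finite_toSet u.sublists).subset
  intro v hv
  simp only [Set.mem_ofPred_eq] at hv ⊢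
  rw [List.mem_sublists]
  exact hv.sublist

theorem finite_classes {A : Type} [DecidableEq A] (k : ℕ) (u : List A) :
    {c : Quotient (kAbSetoid A k) |
    ∃ v : List A, v <:+: u ∧ IsKAbPalindrome k v ∧ c = Quotient.mk (kAbSetoid A k) v}.Finite := by
  apply ((finite_factors u).image (Quotient.mk (kAbSetoid A k))).subset
  rintro c ⟨v, h1, _, rfl⟩
  exact ⟨v, h1, rfl⟩

theorem one_le_kpal {A : Type} [DecidableEq A] (k : ℕ) (u : List A) : 1 ≤ kpal k u := by
  unfold kpal
  rw [Nat.one_le_iff_ne_zero, ← Nat.pos_iff_ne_zero, Set.ncard_pos (finite_classes k u)]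
  refine ⟨Quotient.mk (kAbSetoid A k) [], [], ?_, ?_, rfl⟩
  · exact List.nil_infix
  · intro x _
    rfl

theorem factor_infix {A : Type} (w : ℕ → A) {i n j m : ℕ} (h1 : i ≤ j) (h2 : j + m ≤ i + n) :
    factor w j m <:+: factor w i n := by
  obtain ⟨a, rfl⟩ := Nat.exists_eq_add_of_le h1
  obtain ⟨b, hb⟩ := Nat.exists_eq_add_of_le h2
  have hn : n = a + (m + b) := by omega
  rw [hn, factor_add, factor_add, ← List.append_assoc]
  exact ⟨_, _, rfl⟩

open Pool.Agent.Lib.H16.RichWord in
/-- The number of classes is at least half the number of differences of the walk. -/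
theorem walkDiffs_le_kpal (k : ℕ) (hk : 1 ≤ k) (i n a N : ℕ) (h1 : i ≤ (k + 1) * a)
    (h2 : (k + 1) * (a + N) ≤ i + n + 1) :
    #(walkDiffs a N) ≤ 2 * kpal k (factor (richWord k) i n) := by
  classical
  -- ordered pairs
  set PP : Finset (ℕ × ℕ) := ((Ico a (a + N)) ×ˢ (Ico a (a + N))).filter (fun p => p.1 ≤ p.2)
    with hPP
  set val : ℕ × ℕ → ℤ × (Fin 6 → ℤ) :=
    fun p => ((p.2 : ℤ) - p.1, fun g : Fin 6 => P p.2 g - P p.1 g) with hval
  set cls : ℕ × ℕ → Quotient (kAbSetoid (Option Step) k) :=
    fun p => Quotient.mk (kAbSetoid (Option Step) k) (enc k (factor stepWord p.1 (p.2 - p.1)))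
    with hcls
  have hdiff : walkDiffs a N ⊆ PP.image val ∪ (PP.image val).image (fun v => -v) := by
    intro v hv
    unfold walkDiffs at hv
    rw [mem_image] at hv
    obtain ⟨⟨p, q⟩, hpq, rfl⟩ := hv
    rw [mem_product] at hpq
    rcases le_total p q with h | h
    · apply mem_union_left
      rw [mem_image]
      exact ⟨(p, q), by rw [hPP, mem_filter, mem_product]; exact ⟨hpq, h⟩, rfl⟩
    · apply mem_union_right
      rw [mem_image]
      refine ⟨val (q, p), mem_image_of_mem _ (by
        rw [hPP, mem_filter, mem_product]; exact ⟨⟨hpq.2, hpq.1⟩, h⟩), ?_⟩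
      simp only [hval]
      refine Prod.ext ?_ ?_
      · simp
      · funext g
        simp
  have hfac : ∀ p ∈ PP, ∀ q ∈ PP, cls p = cls q → val p = val q := by
    intro p hp q hq hpq
    have h3 : KAbEquiv k (enc k (factor stepWord p.1 (p.2 - p.1)))
        (enc k (factor stepWord q.1 (q.2 - q.1))) := Quotient.exact hpq
    have h4 := perm_of_enc hk h3
    rw [hPP, mem_filter] at hp hq
    have h5 := h4.length_eq
    rw [factor_length, factor_length] at h5
    refine Prod.ext ?_ ?_
    · simp only [hval]
      have := hp.2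
      have := hq.2
      omega
    · funext g
      simp only [hval]
      have h6 : ((factor stepWord p.1 (p.2 - p.1)).map (fun s => s.1 g)).sum
          = ((factor stepWord q.1 (q.2 - q.1)).map (fun s => s.1 g)).sum := (h4.map _).sum_eq
      rw [sum_factor, sum_factor, Nat.add_sub_cancel' hp.2, Nat.add_sub_cancel' hq.2] at h6
      exact h6
  have hcard : #(PP.image val) ≤ #(PP.image cls) := by
    have hsub : PP.image val ⊆ (PP.image cls).image
        (fun c => if h : ∃ p ∈ PP, cls p = c then val h.choose else 0) := by
      intro v hv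
      rw [mem_image] at hv
      obtain ⟨p, hp, rfl⟩ := hv
      rw [mem_image]
      refine ⟨cls p, mem_image_of_mem _ hp, ?_⟩
      have hex : ∃ q ∈ PP, cls q = cls p := ⟨p, hp, rfl⟩
      rw [dif_pos hex]
      exact hfac _ hex.choose_spec.1 _ hp hex.choose_spec.2
    exact (card_le_card hsub).trans card_image_le
  have hkpal : #(PP.image cls) ≤ kpal k (factor (richWord k) i n) := by
    unfold kpal
    rw [← Set.ncard_coe_finset]
    apply Set.ncard_le_ncard _ (finite_classes k _)
    intro c hc
    rw [mem_coe, mem_image] at hc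
    obtain ⟨⟨p, q⟩, hpq, rfl⟩ := hc
    rw [hPP, mem_filter, mem_product, Finset.mem_Ico, Finset.mem_Ico] at hpq
    obtain ⟨⟨⟨hp1, hp2⟩, hq1, hq2⟩, hpq2⟩ := hpq
    simp only at hp1 hp2 hq1 hq2 hpq2
    refine ⟨enc k (factor stepWord p (q - p)), ?_, enc_palindrome k _, rfl⟩
    rw [← factor_enc]
    apply factor_infix
    · exact h1.trans (Nat.mul_le_mul_left _ hp1)
    · obtain ⟨d, rfl⟩ := Nat.exists_eq_add_of_le hpq2
      rw [Nat.add_sub_cancel_left]
      have h7 : (k + 1) * (p + d + 1) ≤ (k + 1) * (a + N) := Nat.mul_le_mul_left _ (by omega)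
      have h8 : (k + 1) * (p + d + 1) = (k + 1) * p + ((k + 1) * d + k) + 1 := by ring
      omega
  have h9 := card_le_card hdiff
  have h10 := h9.trans (card_union_le _ _)
  have h11 : #((PP.image val).image (fun v => -v)) ≤ #(PP.image val) := card_image_le
  omega

/-- **Infinite `k`-abelian rich words exist.** There is a finite alphabet `A` such that for every
`k ≥ 1` there is an infinite `k`-abelian rich word over `A`. -/
theorem result : ∃ (A : Type) (_ : Fintype A) (_ : DecidableEq A),
    ∀ k : ℕ, 1 ≤ k → ∃ w : ℕ → A, IsKAbelianRich k w := by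
  refine ⟨Option Step, inferInstance, inferInstance, fun k hk => ⟨richWord k, ?_⟩⟩
  refine ⟨1 / (36864 * ((k : ℝ) + 1) ^ 2), by positivity, fun n hn i => ?_⟩
  have hk0 : (1 : ℝ) ≤ k := by exact_mod_cast hk
  have hn0 : (1 : ℝ) ≤ n := by exact_mod_cast hn
  rcases Nat.lt_or_ge n (4 * k) with h | h
  · have h1 : (1 : ℝ) ≤ kpal k (factor (richWord k) i n) := by
      exact_mod_cast one_le_kpal k (factor (richWord k) i n)
    have h2 : (n : ℝ) ≤ 4 * k := by exact_mod_cast h.le
    refine le_trans ?_ h1
    rw [one_div, inv_mul_le_iff₀ (by positivity)]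
    nlinarith
  · -- the window of the walk
    set a := (i + k) / (k + 1) with ha
    set N := (n - k) / (k + 1) with hN
    have ha1 : i ≤ (k + 1) * a := by
      have h1 := Nat.div_add_mod (i + k) (k + 1)
      have h2 := Nat.mod_lt (i + k) (show 0 < k + 1 by omega)
      rw [← ha] at h1
      omega
    have ha2 : (k + 1) * a ≤ i + k := Nat.mul_div_le _ _
    have hN1 : (k + 1) * N ≤ n - k := Nat.mul_div_le _ _
    have h3 := walkDiffs_le_kpal k hk i n a N ha1 (by
      rw [Nat.mul_add]
      omega)
    have hN2 : n - k < (k + 1) * N + (k + 1) := by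
      have h1 := Nat.div_add_mod (n - k) (k + 1)
      have h2 := Nat.mod_lt (n - k) (show 0 < k + 1 by omega)
      rw [← hN] at h1
      omega
    have hN3 : (n : ℝ) ≤ 2 * (k + 1) * N := by
      have h4 : n ≤ 2 * ((k + 1) * N) := by omega
      have h5 : (n : ℝ) ≤ ((2 * ((k + 1) * N) : ℕ) : ℝ) := by exact_mod_cast h4
      push_cast at h5
      linarith
    have hNpos : 1 ≤ N := by
      rcases Nat.eq_zero_or_pos N with h0 | h0
      · rw [h0] at hN3
        simp at hN3
        omega
      · exact h0
    have h4 := Pool.Agent.Lib.H16.RichWord.walkDiffs_card a N hNpos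
    have h5 : ((N : ℝ)) ^ 2 / 4608 ≤ (#(Pool.Agent.Lib.H16.RichWord.walkDiffs a N) : ℝ) := by
      have : (((N : ℚ) ^ 2 / 4608 : ℚ) : ℝ)
          ≤ ((#(Pool.Agent.Lib.H16.RichWord.walkDiffs a N) : ℚ) : ℝ) := by exact_mod_cast h4
      push_cast at this
      exact this
    have h6 : (#(Pool.Agent.Lib.H16.RichWord.walkDiffs a N) : ℝ)
        ≤ 2 * kpal k (factor (richWord k) i n) := by exact_mod_cast h3
    rw [one_div, inv_mul_le_iff₀ (by positivity)]
    have h7 : (n : ℝ) ^ 2 ≤ (2 * (k + 1) * N) ^ 2 :=
      pow_le_pow_left₀ (by positivity) hN3 2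
    have h8 : (0 : ℝ) < ((k : ℝ) + 1) ^ 2 := by positivity
    have h9 : ((N : ℝ)) ^ 2 ≤ 9216 * kpal k (factor (richWord k) i n) := by linarith
    calc (n : ℝ) ^ 2 ≤ (2 * (k + 1) * N) ^ 2 := h7
      _ = 4 * ((k : ℝ) + 1) ^ 2 * (N : ℝ) ^ 2 := by ring
      _ ≤ 4 * ((k : ℝ) + 1) ^ 2 * (9216 * kpal k (factor (richWord k) i n)) :=
          mul_le_mul_of_nonneg_left h9 (by positivity)
      _ = 36864 * ((k : ℝ) + 1) ^ 2 * kpal k (factor (richWord k) i n) := by ring

end Pool.Agent.Results.MP_ca9ca1_co.RichWordsExist
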